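import Pool.Agent.Helper39.FX.Defs

/-! # Embeddings given by points of the curve -/

set_option autoImplicit false

open Polynomial

namespace Pool.Agent.Helper90.FX

open Pool.Agent.Helper39.FX

lemma ev2_C {R L : Type} [CommRing R] [CommRing L] (ι : R →+* L) (t s : L) (d : R[X]) :
    ev2 ι t s (C d) = eval₂ ι t d := by
  unfold ev2
  rw [coe_eval₂RingHom, eval₂_C, coe_eval₂RingHom]

lemma ev2_X {R L : Type} [CommRing R] [CommRing L] (ι : R →+* L) (t s : L) :
    ev2 ι t s X = s := by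
  unfold ev2
  rw [coe_eval₂RingHom, eval₂_X]

lemma ev2_comp {R L L' : Type} [CommRing R] [CommRing L] [CommRing L'] (ι : R →+* L)
    (φ : L →+* L') (t s : L) (A : R[X][X]) :
    φ (ev2 ι t s A) = ev2 (φ.comp ι) (φ t) (φ s) A := by
  unfold ev2
  rw [coe_eval₂RingHom, coe_eval₂RingHom, hom_eval₂]
  congr 1
  ext x <;> simp

/-- EMB -/
theorem emb : S_EMB := by
  intro K k _ _ Cv L _ ι t s htr hf
  set θ : K[X][X] →+* k := ev2 Cv.c Cv.T Cv.α with hθ
  set θ' : K[X][X] →+* L := ev2 ι t s with hθ'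
  have hker : ∀ A, θ A = 0 → θ' A = 0 := by
    intro A hA
    obtain ⟨q, rfl⟩ := Cv.min A hA
    rw [map_mul, hf, zero_mul]
  have hd' : ∀ d : K[X], d ≠ 0 → θ' (C d) ≠ 0 := by
    intro d hd
    rw [hθ', ev2_C]
    exact htr d hd
  have hgen : ∀ x : k, ∃ p : K[X][X] × K[X], p.2 ≠ 0 ∧ x * θ (C p.2) = θ p.1 := by
    intro x
    obtain ⟨A, d, hd, h⟩ := Cv.gen x
    refine ⟨(A, d), hd, ?_⟩
    rw [hθ, ev2_C]
    exact h
  choose p hp0 hp using hgen
  have key : ∀ (x : k) (A : K[X][X]) (d : K[X]), d ≠ 0 → x * θ (C d) = θ A →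
      θ' (p x).1 / θ' (C (p x).2) = θ' A / θ' (C d) := by
    intro x A d hd h
    rw [div_eq_div_iff (hd' _ (hp0 x)) (hd' _ hd)]
    have h1 : θ ((p x).1 * C d - A * C (p x).2) = 0 := by
      rw [map_sub, map_mul, map_mul, ← hp x, ← h]
      ring
    have h2 := hker _ h1
    rw [map_sub, map_mul, map_mul, sub_eq_zero] at h2
    exact h2
  let φ : k →+* L :=
    { toFun := fun x => θ' (p x).1 / θ' (C (p x).2)
      map_one' := by
        rw [key 1 1 1 one_ne_zero (by simp)]
        simp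
      map_mul' := by
        intro x y
        rw [key (x * y) ((p x).1 * (p y).1) ((p x).2 * (p y).2)
          (mul_ne_zero (hp0 x) (hp0 y)) (by
            rw [C_mul, map_mul, map_mul, ← hp x, ← hp y]; ring)]
        rw [C_mul, map_mul, map_mul]
        rw [div_mul_div_comm]
      map_zero' := by
        rw [key 0 0 1 one_ne_zero (by rw [map_zero, zero_mul])]
        simp
      map_add' := by
        intro x y
        rw [key (x + y) ((p x).1 * C (p y).2 + (p y).1 * C (p x).2) ((p x).2 * (p y).2)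
          (mul_ne_zero (hp0 x) (hp0 y)) (by
            rw [C_mul, map_add, map_mul, map_mul, map_mul, ← hp x, ← hp y]; ring)]
        rw [C_mul, map_add, map_mul, map_mul, map_mul]
        rw [div_add_div _ _ (hd' _ (hp0 x)) (hd' _ (hp0 y))]
        congr 1
        ring }
  have hφ : ∀ A : K[X][X], φ (θ A) = θ' A := by
    intro A
    show θ' (p (θ A)).1 / θ' (C (p (θ A)).2) = θ' A
    rw [key (θ A) A 1 one_ne_zero (by simp)]
    simp
  refine ⟨φ, ?_, ?_, ?_⟩
  · ext x
    have h1 : Cv.c x = θ (C (C x)) := by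
      rw [hθ, ev2_C, eval₂_C]
    rw [RingHom.comp_apply, h1, hφ, hθ', ev2_C, eval₂_C]
  · have h1 : Cv.T = θ (C X) := by
      rw [hθ, ev2_C, eval₂_X]
    rw [h1, hφ, hθ', ev2_C, eval₂_X]
  · have h1 : Cv.α = θ X := by
      rw [hθ, ev2_X]
    rw [h1, hφ, hθ', ev2_X]

end Pool.Agent.Helper90.FX
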