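import Pool.Agent.Helper90.FX.Emb

/-! # Infinitely many points of the curve near a point -/

set_option autoImplicit false

open Polynomial Filter Topology IsDedekindDomain NumberField

namespace Pool.Agent.Helper90.FX

open Pool.Agent.Helper39.FX
open Pool.Agent.TH954 Pool.Agent.Y791.BF Pool.Agent.Helper39.FT
open Pool.Agent.Y791.BS (nnf ultra proper charZero_compl)

section strict

variable {L : Type} [NontriviallyNormedField L]

/-- strictly differentiable functions of two variables -/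
def SD (h : L × L → L) : Prop := ∀ p, ∃ h' : L × L →L[L] L, HasStrictFDerivAt h h' p

lemma SD.const (c : L) : SD (fun _ : L × L => c) := fun p => ⟨0, hasStrictFDerivAt_const c p⟩

lemma SD.fst : SD (fun p : L × L => p.1) := fun _ => ⟨_, hasStrictFDerivAt_fst⟩

lemma SD.snd : SD (fun p : L × L => p.2) := fun _ => ⟨_, hasStrictFDerivAt_snd⟩

lemma SD.add {h g : L × L → L} (hh : SD h) (hg : SD g) : SD (fun p => h p + g p) := by
  intro p
  obtain ⟨h', h1⟩ := hh p
  obtain ⟨g', g1⟩ := hg p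
  exact ⟨_, h1.add g1⟩

lemma SD.mul {h g : L × L → L} (hh : SD h) (hg : SD g) : SD (fun p => h p * g p) := by
  intro p
  obtain ⟨h', h1⟩ := hh p
  obtain ⟨g', g1⟩ := hg p
  exact ⟨_, h1.mul g1⟩

lemma SD.pow {h : L × L → L} (hh : SD h) (n : ℕ) : SD (fun p => h p ^ n) := by
  induction n with
  | zero => simpa using SD.const (1 : L)
  | succ n ih => simpa [pow_succ] using ih.mul hh

lemma sd_in {R : Type} [CommRing R] (ι : R →+* L) (d : R[X]) :
    SD (fun p : L × L => eval₂ ι p.1 d) := by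
  induction d using Polynomial.induction_on' with
  | add d e hd he => simpa using hd.add he
  | monomial n a => simpa using (SD.const (ι a)).mul (SD.fst.pow n)

lemma sd_ev2 {R : Type} [CommRing R] (ι : R →+* L) (f : R[X][X]) :
    SD (fun p : L × L => ev2 ι p.1 p.2 f) := by
  induction f using Polynomial.induction_on' with
  | add d e hd he => simpa using hd.add he
  | monomial n a =>
    have h1 := (sd_in ι a).mul (SD.snd.pow n)
    have e : (fun p : L × L => ev2 ι p.1 p.2 (monomial n a)) =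
        fun p : L × L => eval₂ ι p.1 a * p.2 ^ n := by
      funext p
      unfold ev2
      rw [coe_eval₂RingHom, eval₂_monomial, coe_eval₂RingHom]
    rw [e]
    exact h1

/-- near a simple zero there is a zero above every `t` -/
theorem implicit [CompleteSpace L] {R : Type} [CommRing R] (ι : R →+* L) (f : R[X][X]) (t₀ s₀ : L)
    (h0 : ev2 ι t₀ s₀ f = 0) (h1 : ev2 ι t₀ s₀ (derivative f) ≠ 0) :
    ∀ᶠ t in 𝓝 t₀, ∃ s, ev2 ι t s f = 0 := by
  obtain ⟨g', hg⟩ := sd_ev2 ι f (t₀, s₀)
  set g : L × L → L := fun p => ev2 ι p.1 p.2 f with hgdef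
  -- the derivative in the second direction
  have hb : g' (0, 1) = ev2 ι t₀ s₀ (derivative f) := by
    have d1 : HasDerivAt (fun s : L => ((t₀, s) : L × L)) (0, 1) s₀ :=
      (hasDerivAt_const s₀ t₀).prodMk (hasDerivAt_id s₀)
    have d2 : HasDerivAt (fun s : L => g (t₀, s)) (g' (0, 1)) s₀ :=
      HasFDerivAt.comp_hasDerivAt (f := fun s : L => ((t₀, s) : L × L)) s₀ hg.hasFDerivAt d1
    have d3 : HasDerivAt (fun s : L => g (t₀, s))
        (eval s₀ (derivative (f.map (eval₂RingHom ι t₀)))) s₀ := by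
      have e : (fun s : L => g (t₀, s)) = fun s => eval s (f.map (eval₂RingHom ι t₀)) := by
        funext s
        show ev2 ι t₀ s f = _
        unfold ev2
        rw [coe_eval₂RingHom, eval_map]
      rw [e]
      exact (f.map (eval₂RingHom ι t₀)).hasDerivAt s₀
    rw [d2.unique d3, derivative_map, eval_map]
    unfold ev2
    rw [coe_eval₂RingHom]
  have hb0 : g' (0, 1) ≠ 0 := by rw [hb]; exact h1
  have hF : HasStrictFDerivAt (fun p : L × L => (p.1, g p))
      ((ContinuousLinearMap.fst L L L).prod g') (t₀, s₀) :=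
    hasStrictFDerivAt_fst.prodMk hg
  have hsurj : ((ContinuousLinearMap.fst L L L).prod g').range = ⊤ := by
    rw [LinearMap.range_eq_top]
    rintro ⟨u, v⟩
    refine ⟨(u, (v - g' (u, 0)) / g' (0, 1)), ?_⟩
    have e : g' (u, (v - g' (u, 0)) / g' (0, 1)) = v := by
      have e1 : ((u, (v - g' (u, 0)) / g' (0, 1)) : L × L) =
          (u, 0) + ((v - g' (u, 0)) / g' (0, 1)) • ((0, 1) : L × L) := by
        ext <;> simp
      rw [e1, map_add, map_smul, smul_eq_mul]
      field_simp
      ring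
    exact Prod.ext rfl e
  have hmap := hF.map_nhds_eq_of_surj hsurj
  have hr : Set.range (fun p : L × L => (p.1, g p)) ∈ 𝓝 ((t₀, (0 : L)) : L × L) := by
    have e : ((t₀, (0 : L)) : L × L) = (fun p : L × L => (p.1, g p)) (t₀, s₀) := by
      show (t₀, (0 : L)) = (t₀, g (t₀, s₀))
      rw [hgdef]
      simp only
      rw [h0]
    rw [e, ← hmap]
    exact Filter.range_mem_map
  have hc : Tendsto (fun t : L => ((t, (0 : L)) : L × L)) (𝓝 t₀) (𝓝 (t₀, 0)) :=
    (Continuous.prodMk continuous_id continuous_const).tendsto t₀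
  filter_upwards [hc hr] with t ht
  obtain ⟨p, hp⟩ := ht
  have hp1 : p.1 = t := congrArg Prod.fst hp
  have hp2 : g p = 0 := congrArg Prod.snd hp
  exact ⟨p.2, by rw [← hp1]; exact hp2⟩

/-- infinitely many transcendental points -/
theorem inf_gen [CompleteSpace L] {K : Type} [Field K] [Countable K] (ι : K →+* L) (f : K[X][X])
    (t₀ s₀ : L) (h0 : ev2 ι t₀ s₀ f = 0) (h1 : ev2 ι t₀ s₀ (derivative f) ≠ 0) :
    {t : L | (∀ d : K[X], d ≠ 0 → eval₂ ι t d ≠ 0) ∧ ∃ s, ev2 ι t s f = 0}.Infinite := by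
  classical
  intro hfin
  have hKX : Countable K[X] := Pool.Agent.Y791.BC.Rig.countable_poly K
  have hbad : (⋃ d : {d : K[X] // d ≠ 0}, {t : L | eval₂ ι t d.1 = 0}).Countable := by
    refine Set.countable_iUnion fun d => ?_
    have hd : d.1.map ι ≠ 0 := (Polynomial.map_ne_zero_iff ι.injective).2 d.2
    have hs : {t : L | eval₂ ι t d.1 = 0} ⊆ {t | t ∈ (d.1.map ι).roots.toFinset} := by
      intro t ht
      rw [Set.mem_ofPred_eq] at ht ⊢
      rw [Multiset.mem_toFinset, mem_roots hd, IsRoot.def, eval_map]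
      exact ht
    exact ((Finset.finite_toSet _).subset hs).countable
  obtain ⟨V, hVU, hV, htV⟩ := mem_nhds_iff.1 (implicit ι f t₀ s₀ h0 h1)
  obtain ⟨t, ht1, ht2⟩ := ((hfin.countable.union hbad).dense_compl L).exists_mem_open hV ⟨t₀, htV⟩
  apply ht1
  by_cases htr : ∀ d : K[X], d ≠ 0 → eval₂ ι t d ≠ 0
  · exact Or.inl ⟨htr, hVU ht2⟩
  · push Not at htr
    obtain ⟨d, hd, hd0⟩ := htr
    exact Or.inr (Set.mem_iUnion.2 ⟨⟨d, hd⟩, hd0⟩)

end strict

/-- INF -/
theorem inf : S_INF := by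
  intro K k _ _ _ hfg Cv i
  have hKc : Countable K := countable_fg K
  let inst1 : NontriviallyNormedField i.Lv := nnf i.v
  have hps : ProperSpace i.Lv := proper i.v
  have hcs : CompleteSpace i.Lv := inferInstance
  -- the point is simple
  have hroot : ev2 (i.φ.comp Cv.c) (i.φ Cv.T) (i.φ Cv.α) Cv.f = 0 := by
    rw [← ev2_comp, Cv.root, map_zero]
  have hder : ev2 (i.φ.comp Cv.c) (i.φ Cv.T) (i.φ Cv.α) (derivative Cv.f) ≠ 0 := by
    rw [← ev2_comp]
    intro h
    have h1 := Cv.min _ ((_root_.map_eq_zero i.φ).1 h)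
    have h2 : (derivative Cv.f).natDegree < Cv.f.natDegree :=
      natDegree_derivative_lt Cv.pos.ne'
    have h3 : derivative Cv.f = 0 := by
      by_contra h3
      exact Cv.monic.not_dvd_of_natDegree_lt h3 h2 h1
    have h4 := derivative_eq_zero.1 h3
    exact Cv.pos.ne' h4
  have hinf := inf_gen (L := i.Lv) (i.φ.comp Cv.c) Cv.f (i.φ Cv.T) (i.φ Cv.α) hroot hder
  refine hinf.mono ?_
  rintro t ⟨ht, s, hs⟩
  obtain ⟨φ, h1, h2, h3⟩ := emb K k Cv i.Lv (i.φ.comp Cv.c) t s ht hs
  exact ⟨φ, h1, h2⟩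

end Pool.Agent.Helper90.FX
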