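import Pool.Agent.Helper90.FX.SelB

/-!
# SELN (not a result)
-/

set_option autoImplicit false
set_option linter.unusedSectionVars false

open Polynomial IsDedekindDomain NumberField

namespace Pool.Agent.Helper90.FX.Sel

open Pool.Agent.TH954 Pool.Agent.Y791.BF Pool.Agent.Helper39.FT Pool.Agent.Helper39.FX

variable {K k : Type} [Field K] [CharZero K] [Field k] (C : Crv K k) {F0 : Type} [Field F0]
  [Algebra k F0]

lemma irr_K : Irreducible C.f :=
  C.monic.irreducible_of_irreducible_map (mapRingHom (algebraMap K (AlgebraicClosure K))) C.f C.irr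

/-- resultants with classes are not zero -/
lemma res_cls (hNMR : S_NMR) {A : K[X][X]} {N : ℕ} {x : F0} (h : ClsC C N A x) :
    resultant C.f A ≠ 0 := by
  refine hNMR.2.2.2.2 K C.f A C.monic (irr_K C) ?_
  rintro ⟨g, hg⟩
  apply h.1
  rw [hg, map_mul, C.root, zero_mul]

/-- reductions of resultants -/
lemma res_red (hNMR : S_NMR) (D : RSys K) {f A' : D.B[X][X]} (hf : mp D.B.subtype f = C.f)
    (hfm : f.Monic) {A : K[X][X]} (hA : mp D.B.subtype A' = A) (h0 : resultant C.f A ≠ 0)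
    {Z : Finset K} (hZ : coef (resultant C.f A) ⊆ Z) (hD : GoodZ D Z) :
    resultant (mp D.r f) (mp D.r A') ≠ 0 := by
  classical
  obtain ⟨n, hn⟩ := nonempty_support_iff.2 h0
  have hn0 : (resultant C.f A).coeff n ≠ 0 := mem_support_iff.1 hn
  obtain ⟨hB, hr⟩ := hD _ (hZ (Finset.mem_image_of_mem _ hn)) hn0
  have e1 := hNMR.1 D.B[X] (ZMod D.p)[X] (mapRingHom D.r) f A' hfm
  have e2 := hNMR.1 D.B[X] K[X] (mapRingHom D.B.subtype) f A' hfm
  have e3 : resultant C.f A = mapRingHom D.B.subtype (resultant f A') := by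
    rw [← e2]
    have e4 : f.map (mapRingHom D.B.subtype) = C.f := hf
    have e5 : A'.map (mapRingHom D.B.subtype) = A := hA
    rw [e4, e5]
  have e6 : (resultant f A').coeff n = ⟨(resultant C.f A).coeff n, hB⟩ := by
    apply Subtype.ext
    have e9 := congrArg (fun P : K[X] => P.coeff n) e3
    simp only [coe_mapRingHom, coeff_map] at e9
    exact e9.symm
  intro h
  apply hr
  have e7 : resultant (mp D.r f) (mp D.r A') = mapRingHom D.r (resultant f A') := e1
  rw [e7] at h
  have e8 := congrArg (fun P : (ZMod D.p)[X] => P.coeff n) h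
  simp only [coe_mapRingHom, coeff_map, coeff_zero] at e8
  rw [e6] at e8
  exact e8

/-- the derivative -/
lemma der_ndvd {p : ℕ} [hp : Fact p.Prime] {f : (ZMod p)[X][X]} (hf : f.Monic)
    (h0 : 0 < f.natDegree) (hn : f.natDegree < p) : ¬ f ∣ derivative f := by
  have hc : (derivative f).coeff (f.natDegree - 1) ≠ 0 := by
    have e1 : f.natDegree - 1 + 1 = f.natDegree := by omega
    rw [coeff_derivative, e1]
    have e2 : f.coeff f.natDegree = 1 := hf
    rw [e2, one_mul]
    have e3 : ((f.natDegree - 1 : ℕ) : (ZMod p)[X]) + 1 = (f.natDegree : (ZMod p)[X]) := by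
      rw [← Nat.cast_succ, Nat.succ_eq_add_one, e1]
    rw [e3]
    intro h
    have h1 : (Polynomial.C ((f.natDegree : ZMod p)) : (ZMod p)[X]) = 0 := by
      rw [map_natCast]
      exact h
    rw [C_eq_zero, ZMod.natCast_eq_zero_iff] at h1
    exact absurd (Nat.le_of_dvd h0 h1) (by omega)
  have hd : derivative f ≠ 0 := by
    intro h
    rw [h, coeff_zero] at hc
    exact hc rfl
  refine hf.not_dvd_of_degree_lt hd ?_
  have hf0 : f ≠ 0 := hf.ne_zero
  exact degree_derivative_lt hf0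

variable (q : ∀ i : PlF k, Plc k F0 i.Lv)

/-- the class of `x T` -/
lemma cls_mulT {N : ℕ} {α : K} {x : F0} (D : RSys K) {A : D.B[X][X]}
    (h : ClsC C N (Polynomial.C (Polynomial.C α) * mp D.B.subtype A) x) :
    ClsC C N (Polynomial.C (Polynomial.C α) * mp D.B.subtype (Polynomial.C X * A))
      (x * algebraMap k F0 C.T) := by
  obtain ⟨h0, g, hg⟩ := h
  have hT : C.T ≠ 0 := by
    have := C.T_trans (d := X) X_ne_zero
    rw [eval₂_X] at this
    exact this
  have e : Polynomial.C (Polynomial.C α) * mp D.B.subtype (Polynomial.C X * A) =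
      (Polynomial.C (Polynomial.C α) * mp D.B.subtype A) * Polynomial.C X := by
    simp only [mp, Polynomial.map_mul, Polynomial.map_C, coe_mapRingHom, Polynomial.map_X]
    ring
  refine ⟨?_, g, ?_⟩
  · rw [e, map_mul, ev2_CX]
    exact mul_ne_zero h0 hT
  · rw [e, map_mul, ev2_CX, map_mul, hg]
    ring

/-- one of the two functions has a good class -/
lemma exists_dat (hNMR : S_NMR) (hF : KumC F0 C) {x : F0} (hx0 : x ≠ 0) (hx1 : x - 1 ≠ 0)
    (hy1 : x * algebraMap k F0 C.T - 1 ≠ 0) {A3 H3 A3' H3' : K[X][X]}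
    (cA3 : ClsC C (2 * C.f.natDegree + 1) A3 x)
    (cH3 : ClsC C (2 * C.f.natDegree + 1) H3 (x - 1))
    (cA3' : ClsC C (2 * C.f.natDegree + 1) A3' (x * algebraMap k F0 C.T))
    (cH3' : ClsC C (2 * C.f.natDegree + 1) H3' (x * algebraMap k F0 C.T - 1))
    (D : RSys K) {Z : Finset K} (hD : GoodZ D Z)
    (z1 : coef2 A3 ⊆ Z) (z2 : coef2 H3 ⊆ Z) (z3 : coef2 A3' ⊆ Z) (z4 : coef2 H3' ⊆ Z)
    (z5 : coef (resultant C.f A3) ⊆ Z) (z6 : coef (resultant C.f H3) ⊆ Z)
    (z7 : coef (resultant C.f A3') ⊆ Z) (z8 : coef (resultant C.f H3') ⊆ Z)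
    {f : D.B[X][X]} (hf : mp D.B.subtype f = C.f) (hfm : f.Monic)
    (hirr : Irreducible (mp D.r f)) (hder : ¬ mp D.r f ∣ derivative (mp D.r f)) :
    Nonempty (Dat C D f x) ∨ Nonempty (Dat C D f (x * algebraMap k F0 C.T)) := by
  have hN : 0 < D.p ^ (2 * C.f.natDegree) := pow_pos D.hp.out.pos _
  obtain ⟨α, A, hα, cA, nA⟩ := cls_normal C hF D hf hfm hx0 hN
  obtain ⟨β, H, hβ, cH, nH⟩ := cls_normal C hF D hf hfm hx1 hN
  obtain ⟨β', H', hβ', cH', nH'⟩ := cls_normal C hF D hf hfm hy1 hN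
  obtain ⟨a3, ha3⟩ := lift2 D z1 hD
  obtain ⟨h3, hh3⟩ := lift2 D z2 hD
  obtain ⟨a3', ha3'⟩ := lift2 D z3 hD
  obtain ⟨h3', hh3'⟩ := lift2 D z4 hD
  have hpr : Prime (mp D.r f) := hirr.prime
  by_cases hd : mp D.r f ∣ del (mp D.r f) (mp D.r A)
  · right
    have eT : mp D.r (Polynomial.C X * A) = Polynomial.C X * mp D.r A := by
      simp only [mp, Polynomial.map_mul, Polynomial.map_C, coe_mapRingHom, Polynomial.map_X]
    have hX : ¬ mp D.r f ∣ Polynomial.C X * mp D.r A := by
      intro h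
      rcases hpr.dvd_or_dvd h with h | h
      · have h1 := del_CX (mp D.r f)
        obtain ⟨g, hg⟩ := h
        apply hder
        rw [← h1, hg, del_mul, del_self, zero_mul, zero_add]
        exact dvd_mul_right _ _
      · exact nA h
    refine ⟨⟨α, β', Polynomial.C X * A, H', a3', h3', hα, hβ', cls_mulT C D cA, cH',
      by rw [ha3']; exact cA3', by rw [hh3']; exact cH3', by rw [eT]; exact hX, nH',
      res_red C hNMR D hf hfm ha3' (res_cls C hNMR cA3') z7 hD,
      res_red C hNMR D hf hfm hh3' (res_cls C hNMR cH3') z8 hD, ?_⟩⟩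
    rw [eT, del_mul, del_CX]
    intro h
    have h1 : mp D.r f ∣ Polynomial.C X * del (mp D.r f) (mp D.r A) := hd.mul_left _
    have h2 := (dvd_add_left h1).1 h
    rcases hpr.dvd_or_dvd h2 with h | h
    · exact hder h
    · exact nA h
  · left
    exact ⟨⟨α, β, A, H, a3, h3, hα, hβ, cA, cH,
      by rw [ha3]; exact cA3, by rw [hh3]; exact cH3, nA, nH,
      res_red C hNMR D hf hfm ha3 (res_cls C hNMR cA3) z5 hD,
      res_red C hNMR D hf hfm hh3 (res_cls C hNMR cH3) z6 hD, hd⟩⟩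

theorem main (hSYS : S_SYS) (hBN : S_BN) (hNMR : S_NMR) (hWRL : S_WRL) (hREDN : S_REDN) :
    S_SELN := by
  classical
  intro K k _ _ _ _ hess C F0 _ _ _ q hF x hx
  have hT0 : C.T ≠ 0 := by
    have := C.T_trans (d := X) X_ne_zero
    rw [eval₂_X] at this
    exact this
  set T : F0 := algebraMap k F0 C.T with hT
  have hTF0 : T ≠ 0 := (_root_.map_ne_zero _).2 hT0
  have halgT : IsAlgebraic k T := isAlgebraic_algebraMap _
  have hx0 : x ≠ 0 := by
    rintro rfl
    exact hx isAlgebraic_zero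
  have hx1 : x - 1 ≠ 0 := by
    intro h
    rw [sub_eq_zero] at h
    rw [h] at hx
    exact hx isAlgebraic_one
  have hyt : Transcendental k (x * T) := by
    intro h
    apply hx
    have e : x = x * T * T⁻¹ := by
      rw [mul_assoc, mul_inv_cancel₀ hTF0, mul_one]
    rw [e]
    exact h.mul halgT.inv
  have hy0 : x * T ≠ 0 := mul_ne_zero hx0 hTF0
  have hy1 : x * T - 1 ≠ 0 := by
    intro h
    rw [sub_eq_zero] at h
    rw [h] at hyt
    exact hyt isAlgebraic_one
  obtain ⟨M, hM⟩ := hWRL C.f.natDegree C.pos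
  obtain ⟨ZB, hZB⟩ := hBN K C.f C.monic C.irr
  obtain ⟨A3, cA3⟩ := hF x hx0 (2 * C.f.natDegree + 1) (by omega)
  obtain ⟨H3, cH3⟩ := hF (x - 1) hx1 (2 * C.f.natDegree + 1) (by omega)
  obtain ⟨A3', cA3'⟩ := hF (x * T) hy0 (2 * C.f.natDegree + 1) (by omega)
  obtain ⟨H3', cH3'⟩ := hF (x * T - 1) hy1 (2 * C.f.natDegree + 1) (by omega)
  set Z : Finset K := ZB ∪ coef2 C.f ∪ coef2 A3 ∪ coef2 H3 ∪ coef2 A3' ∪ coef2 H3' ∪
    coef (resultant C.f A3) ∪ coef (resultant C.f H3) ∪ coef (resultant C.f A3') ∪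
    coef (resultant C.f H3') with hZ
  let base : Bool × Bool → F0 := fun b =>
    if b.2 then (if b.1 then x * T else x) else (if b.1 then x * T else x)⁻¹
  let cand : (Bool × Bool) × {l // l ∈ Finset.Icc 1 M} → F0 := fun b =>
    T + ((b.2 : ℕ) : F0) * base b.1
  have hbase : ∀ b, Transcendental k (base b) := by
    have inv : ∀ z : F0, Transcendental k z → Transcendental k z⁻¹ := by
      intro z hz h
      apply hz
      rw [← inv_inv z]
      exact h.inv
    rintro ⟨b1, b2⟩
    cases b1 <;> cases b2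
    · exact inv _ hx
    · exact hx
    · exact inv _ hyt
    · exact hyt
  have htr : ∀ b, Transcendental k (cand b) := by
    intro b h
    apply hbase b.1
    have hl : 1 ≤ (b.2 : ℕ) := (Finset.mem_Icc.1 b.2.2).1
    have hl0 : ((b.2 : ℕ) : F0) ≠ 0 := Nat.cast_ne_zero.2 (by omega)
    have e : base b.1 = (cand b - T) * ((b.2 : ℕ) : F0)⁻¹ := by
      change base b.1 = (T + ((b.2 : ℕ) : F0) * base b.1 - T) * ((b.2 : ℕ) : F0)⁻¹
      field_simp
      ring
    rw [e]
    have hla : IsAlgebraic k ((b.2 : ℕ) : F0) := by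
      rw [← map_natCast (algebraMap k F0)]
      exact isAlgebraic_algebraMap _
    exact (h.sub halgT).mul hla.inv
  -- one of the candidates is good
  have hsel : ∀ D : RSys K, GoodZ D Z → max M C.f.natDegree < D.p → ∃ b, GoodC C q D (cand b) := by
    intro D hD hp
    have hMp : M < D.p := (le_max_left _ _).trans_lt hp
    have hnp : C.f.natDegree < D.p := (le_max_right _ _).trans_lt hp
    obtain ⟨f, hf⟩ := lift2 D (A := C.f) (Z := Z) (fun z hz => by simp [hZ, hz]) hD
    have hfm : f.Monic := monic_lift D hf C.monic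
    have hirr := hZB D (fun z hz => hD z (by simp [hZ, hz])) f hf hfm
    have hfr : (mp D.r f).Monic := hfm.map _
    have hdeg : (mp D.r f).natDegree = C.f.natDegree := by
      have d1 : natDegree C.f = natDegree f := by
        rw [← hf]
        exact natDegree_map_eq_of_injective (mpr_inj D) f
      have d4 : natDegree (mp D.r f) = natDegree f := hfm.natDegree_map _
      rw [d4, d1]
    have hder : ¬ mp D.r f ∣ derivative (mp D.r f) :=
      der_ndvd hfr (by rw [hdeg]; exact C.pos) (by rw [hdeg]; exact hnp)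
    have hM' := hM D.p hMp
    rcases exists_dat C hNMR hF hx0 hx1 hy1 cA3 cH3 cA3' cH3' D hD
      (fun z hz => by simp [hZ, hz]) (fun z hz => by simp [hZ, hz])
      (fun z hz => by simp [hZ, hz]) (fun z hz => by simp [hZ, hz])
      (fun z hz => by simp [hZ, hz]) (fun z hz => by simp [hZ, hz])
      (fun z hz => by simp [hZ, hz]) (fun z hz => by simp [hZ, hz]) hf hfm hirr hder with
      ⟨⟨d⟩⟩ | ⟨⟨d⟩⟩
    · obtain ⟨l, hl, h | h⟩ := sel1 C q hNMR hREDN hess D hM' hf hfm hirr hder d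
      · exact ⟨((false, true), ⟨l, hl⟩), h⟩
      · exact ⟨((false, false), ⟨l, hl⟩), h⟩
    · obtain ⟨l, hl, h | h⟩ := sel1 C q hNMR hREDN hess D hM' hf hfm hirr hder d
      · exact ⟨((true, true), ⟨l, hl⟩), h⟩
      · exact ⟨((true, false), ⟨l, hl⟩), h⟩
  by_contra hcon
  push Not at hcon
  have h1 : ∀ b, ∃ (Z : Finset K) (n0 : ℕ), ∀ D : RSys K, n0 < D.p → GoodZ D Z →
      ¬ GoodC C q D (cand b) := by
    intro b
    have h2 := hcon _ (htr b)
    unfold AllGoodC at h2
    push Not at h2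
    exact h2
  choose Zb nb hb using h1
  obtain ⟨D, hDp, hD⟩ := hSYS K hess (Z ∪ Finset.univ.biUnion Zb)
    (max (max M C.f.natDegree) (Finset.univ.sup nb))
  obtain ⟨b, hgood⟩ := hsel D (fun z hz => hD z (Finset.mem_union_left _ hz))
    ((le_max_left _ _).trans_lt hDp)
  refine hb b D (((Finset.le_sup (Finset.mem_univ b)).trans (le_max_right _ _)).trans_lt hDp)
    (fun z hz => hD z ?_) hgood
  exact Finset.mem_union_right _ (Finset.mem_biUnion.2 ⟨b, Finset.mem_univ b, hz⟩)

end Pool.Agent.Helper90.FX.Sel
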