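import Pool.Agent.Helper39.FX.Two
import Pool.Agent.Helper39.FX.Stm2

/-!
# SELN, auxiliary lemmas (not results)
-/

set_option autoImplicit false
set_option linter.unusedSectionVars false

open Polynomial IsDedekindDomain NumberField

namespace Pool.Agent.Helper90.FX.Sel

open Pool.Agent.TH954 Pool.Agent.Y791.BF Pool.Agent.Helper39.FT Pool.Agent.Helper39.FX

section lift

variable {K : Type} [Field K] (D : RSys K)

open scoped Classical in
/-- the coefficients of a polynomial in two variables -/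
noncomputable def coef2 (A : K[X][X]) : Finset K := A.support.biUnion fun n => coef (A.coeff n)

lemma mem_coef2 {A : K[X][X]} {n m : ℕ} (h : (A.coeff n).coeff m ≠ 0) :
    (A.coeff n).coeff m ∈ coef2 A := by
  classical
  unfold coef2
  refine Finset.mem_biUnion.2 ⟨n, ?_, ?_⟩
  · rw [mem_support_iff]
    intro h0
    rw [h0, coeff_zero] at h
    exact h rfl
  · exact Finset.mem_image_of_mem _ (mem_support_iff.2 h)

lemma lift2_of {A : K[X][X]} (h : ∀ n m, (A.coeff n).coeff m ∈ D.B) :
    ∃ A' : D.B[X][X], mp D.B.subtype A' = A := by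
  have hl : A ∈ Polynomial.lifts (mapRingHom D.B.subtype) := by
    rw [Polynomial.lifts_iff_coeff_lifts]
    intro n
    have h2 : A.coeff n ∈ Polynomial.lifts D.B.subtype := by
      rw [Polynomial.lifts_iff_coeff_lifts]
      intro m
      exact ⟨⟨_, h n m⟩, rfl⟩
    obtain ⟨P, hP⟩ := h2
    exact ⟨P, hP⟩
  obtain ⟨A', hA'⟩ := hl
  exact ⟨A', hA'⟩

lemma lift2 {A : K[X][X]} {Z : Finset K} (hZ : coef2 A ⊆ Z) (h : GoodZ D Z) :
    ∃ A' : D.B[X][X], mp D.B.subtype A' = A := by
  refine lift2_of D fun n m => ?_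
  by_cases h0 : (A.coeff n).coeff m = 0
  · rw [h0]
    exact zero_mem _
  · exact (h _ (hZ (mem_coef2 h0)) h0).choose

lemma sub_inj : Function.Injective (D.B.subtype) := Subtype.val_injective

lemma mpr_inj : Function.Injective (mapRingHom D.B.subtype) :=
  Polynomial.map_injective _ (sub_inj D)

lemma mp_inj : Function.Injective (mp D.B.subtype : D.B[X][X] → K[X][X]) :=
  Polynomial.map_injective _ (mpr_inj D)

lemma monic_lift {f : D.B[X][X]} {g : K[X][X]} (h : mp D.B.subtype f = g) (hg : g.Monic) :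
    f.Monic := by
  rw [← h] at hg
  exact (mpr_inj D).monic_map_iff.2 hg

/-- normalisation -/
lemma normal2 {A : K[X][X]} (hA : A ≠ 0) : ∃ (α : K) (A' : D.B[X][X]), α ≠ 0 ∧
    A = Polynomial.C (Polynomial.C α) * mp D.B.subtype A' ∧ mp D.r A' ≠ 0 := by
  classical
  have hne : (coef2 A).Nonempty := by
    obtain ⟨n, hn⟩ := nonempty_support_iff.2 hA
    have h1 : A.coeff n ≠ 0 := mem_support_iff.1 hn
    obtain ⟨m, hm⟩ := nonempty_support_iff.2 h1
    exact ⟨_, mem_coef2 (mem_support_iff.1 hm)⟩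
  have hcoef : ∀ z ∈ coef2 A, ∃ n m, (A.coeff n).coeff m = z ∧ z ≠ 0 := by
    intro z hz
    unfold coef2 at hz
    obtain ⟨n, -, hz⟩ := Finset.mem_biUnion.1 hz
    obtain ⟨m, hm, rfl⟩ := Finset.mem_image.1 hz
    exact ⟨n, m, rfl, mem_support_iff.1 hm⟩
  obtain ⟨c, hc, hcs⟩ := D.exists_max (coef2 A) hne (by
    intro x hx
    obtain ⟨_, _, _, h⟩ := hcoef x hx
    exact h)
  obtain ⟨n0, m0, hcn, hc0⟩ := hcoef c hc
  obtain ⟨A', hA'⟩ := lift2_of D (A := Polynomial.C (Polynomial.C c⁻¹) * A) (by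
    intro n m
    rw [coeff_C_mul, coeff_C_mul]
    by_cases h0 : (A.coeff n).coeff m = 0
    · rw [h0, mul_zero]
      exact zero_mem _
    · have := hcs _ (mem_coef2 h0)
      rwa [div_eq_inv_mul] at this)
  refine ⟨c, A', hc0, ?_, ?_⟩
  · rw [hA', ← mul_assoc, ← C_mul, ← C_mul, mul_inv_cancel₀ hc0, C_1, C_1, one_mul]
  · intro h
    have h1 : (A'.coeff n0).coeff m0 = 1 := by
      apply Subtype.ext
      have h2 := congrArg (fun P : K[X][X] => (P.coeff n0).coeff m0) hA'
      simp only [mp, coeff_map, coeff_C_mul, coe_mapRingHom] at h2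
      change (((A'.coeff n0).coeff m0 : D.B) : K) = _ at h2
      rw [h2, hcn, inv_mul_cancel₀ hc0]
      rfl
    have h2 := congrArg (fun P : (ZMod D.p)[X][X] => (P.coeff n0).coeff m0) h
    simp only [mp, coeff_map, coe_mapRingHom, h1, map_one, coeff_zero] at h2
    exact one_ne_zero h2

end lift

section res

/-- the resultant vanishes at the points at which both polynomials vanish -/
lemma res_ne (hNMR : S_NMR) {F E : Type} [Field F] [Field E] [IsAlgClosed E] [Algebra F E]
    {f g : F[X][X]} (hf : f.Monic) {a b : E} (hab : ev2 (algebraMap F E) a b f = 0)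
    (hr : aeval a (resultant f g) ≠ 0) : ev2 (algebraMap F E) a b g ≠ 0 := by
  obtain ⟨h1, h2, -⟩ := hNMR
  intro hg
  apply hr
  have e1 := h1 F[X] E (eval₂RingHom (algebraMap F E) a) f g hf
  have hm : (f.map (eval₂RingHom (algebraMap F E) a)).Monic := hf.map _
  obtain ⟨n, s, hs⟩ : ∃ (n : ℕ) (s : Fin n → E),
      f.map (eval₂RingHom (algebraMap F E) a) = ∏ j, (X - Polynomial.C (s j)) := by
    have hsp := IsAlgClosed.splits (f.map (eval₂RingHom (algebraMap F E) a))
    have h3 := hsp.eq_prod_roots_of_monic hm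
    set R := (f.map (eval₂RingHom (algebraMap F E) a)).roots with hR
    refine ⟨R.toList.length, fun j => R.toList.get j, ?_⟩
    rw [h3]
    have h4 : (R.map fun x => X - Polynomial.C x) = ((R.toList.map fun x => X - Polynomial.C x : List E[X]) : Multiset E[X]) := by
      rw [← Multiset.map_coe, Multiset.coe_toList]
    rw [h4, Multiset.prod_coe, ← List.prod_ofFn]
    congr 1
    apply List.ext_get
    · simp
    · intro i hi1 hi2
      simp
  have hb : ∃ j, s j = b := by
    have h5 : (f.map (eval₂RingHom (algebraMap F E) a)).eval b = 0 := by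
      rw [← ev2_eval]
      exact hab
    rw [hs, eval_prod, Finset.prod_eq_zero_iff] at h5
    obtain ⟨j, -, hj⟩ := h5
    rw [eval_sub, eval_X, eval_C, sub_eq_zero] at hj
    exact ⟨j, hj.symm⟩
  obtain ⟨j, hj⟩ := hb
  have e2 : aeval a (resultant f g) = eval₂RingHom (algebraMap F E) a (resultant f g) := rfl
  rw [e2, ← e1, hs, h2]
  refine Finset.prod_eq_zero (Finset.mem_univ j) ?_
  rw [hj, ← ev2_eval]
  exact hg

end res

end Pool.Agent.Helper90.FX.Sel
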