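import Pool.Agent.Helper90.FX.SelA

/-!
# SELN, the choice at a reduction system (not results)
-/

set_option autoImplicit false
set_option linter.unusedSectionVars false

open Polynomial IsDedekindDomain NumberField

namespace Pool.Agent.Helper90.FX.Sel

open Pool.Agent.TH954 Pool.Agent.Y791.BF Pool.Agent.Helper39.FT Pool.Agent.Helper39.FX

variable {K k : Type} [Field K] [CharZero K] [Field k] (C : Crv K k) {F0 : Type} [Field F0]
  [Algebra k F0]

/-- a class modulo `N`-th powers with a nonzero reduction -/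
lemma cls_normal (hF : KumC F0 C) (D : RSys K) {f : D.B[X][X]} (hf : mp D.B.subtype f = C.f)
    (hfm : f.Monic) {x : F0} (hx : x ≠ 0) {N : ℕ} (hN : 0 < N) :
    ∃ (α : K) (A : D.B[X][X]), α ≠ 0 ∧
      ClsC C N (Polynomial.C (Polynomial.C α) * mp D.B.subtype A) x ∧ ¬ mp D.r f ∣ mp D.r A := by
  obtain ⟨A0, hA0, hg⟩ := hF x hx N hN
  have hm := C.monic
  have hev : ev2 C.c C.T C.α (A0 %ₘ C.f) = ev2 C.c C.T C.α A0 := by
    have h1 := modByMonic_add_div A0 C.f
    have h2 := congrArg (ev2 C.c C.T C.α) h1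
    rw [map_add, map_mul, C.root, zero_mul, add_zero] at h2
    exact h2
  have hA1 : A0 %ₘ C.f ≠ 0 := by
    intro h
    rw [h, map_zero] at hev
    exact hA0 hev.symm
  obtain ⟨α, A, hα, eA, hA⟩ := normal2 D hA1
  refine ⟨α, A, hα, ⟨?_, ?_⟩, ?_⟩
  · rw [← eA, hev]
    exact hA0
  · rw [← eA, hev]
    exact hg
  · have hmr : (mp D.r f).Monic := hfm.map _
    refine hmr.not_dvd_of_degree_lt hA ?_
    have d1 : degree (A0 %ₘ C.f) < degree C.f := degree_modByMonic_lt _ hm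
    have hCC : (Polynomial.C α : K[X]) ≠ 0 := C_eq_zero.not.2 hα
    have d2 : degree (A0 %ₘ C.f) = degree A := by
      rw [eA, degree_C_mul hCC]
      exact degree_map_eq_of_injective (mpr_inj D) A
    have d3 : degree C.f = degree f := by
      rw [← hf]
      exact degree_map_eq_of_injective (mpr_inj D) f
    have d4 : degree (mp D.r f) = degree f := hfm.degree_map _
    rw [d4, ← d3]
    refine lt_of_le_of_lt ?_ d1
    rw [d2]
    exact degree_map_le

variable (q : ∀ i : PlF k, Plc k F0 i.Lv)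

/-- the values of `T + l y` -/
lemma val_Tl {i : PlF k} {Q : Plc k F0 i.Lv} {l : ℕ} {y : F0} {u : i.Lv} (h : Q.val y u) :
    Q.val (algebraMap k F0 C.T + (l : F0) * y) (i.φ C.T + (l : i.Lv) * u) := by
  have h1 : Q.val (algebraMap k F0 C.T) (i.φ C.T) := Plc.val_alg (pl := Q) C.T
  have h2 : Q.val ((l : F0)) (l : i.Lv) := by
    have := Plc.val_alg (pl := Q) (l : k)
    rw [map_natCast, map_natCast] at this
    exact this
  exact h1.add (h2.mul h)

/-- the data of a function at a reduction system -/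
structure Dat (D : RSys K) (f : D.B[X][X]) (x : F0) : Type where
  α : K
  β : K
  A : D.B[X][X]
  H : D.B[X][X]
  A3 : D.B[X][X]
  H3 : D.B[X][X]
  hα : α ≠ 0
  hβ : β ≠ 0
  cA : ClsC C (D.p ^ (2 * C.f.natDegree)) (Polynomial.C (Polynomial.C α) * mp D.B.subtype A) x
  cH : ClsC C (D.p ^ (2 * C.f.natDegree))
    (Polynomial.C (Polynomial.C β) * mp D.B.subtype H) (x - 1)
  cA3 : ClsC C (2 * C.f.natDegree + 1) (mp D.B.subtype A3) x
  cH3 : ClsC C (2 * C.f.natDegree + 1) (mp D.B.subtype H3) (x - 1)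
  nA : ¬ mp D.r f ∣ mp D.r A
  nH : ¬ mp D.r f ∣ mp D.r H
  rA3 : resultant (mp D.r f) (mp D.r A3) ≠ 0
  rH3 : resultant (mp D.r f) (mp D.r H3) ≠ 0
  nd : ¬ mp D.r f ∣ del (mp D.r f) (mp D.r A)

lemma sel1 (hNMR : S_NMR) (hREDN : S_REDN) (hess : Algebra.EssFiniteType ℚ K) {M : ℕ}
    (D : RSys K) (hM : ∀ f U V : (ZMod D.p)[X][X],
      f.Monic → f.natDegree = C.f.natDegree → resultant f V ≠ 0 →
      ∃ l ∈ Finset.Icc 1 M, wr C.f.natDegree
        (chi f (Polynomial.C X * V + (l : (ZMod D.p)[X][X]) * U) V) ≠ 0)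
    {f : D.B[X][X]} (hf : mp D.B.subtype f = C.f) (hfm : f.Monic)
    (hirr : Irreducible (mp D.r f)) (hder : ¬ mp D.r f ∣ derivative (mp D.r f)) {x : F0}
    (d : Dat C D f x) :
    ∃ l ∈ Finset.Icc 1 M, GoodC C q D (algebraMap k F0 C.T + (l : F0) * x) ∨
      GoodC C q D (algebraMap k F0 C.T + (l : F0) * x⁻¹) := by
  have hfr : (mp D.r f).Monic := hfm.map _
  have hdeg : (mp D.r f).natDegree = C.f.natDegree := by
    have d1 : natDegree C.f = natDegree f := by
      rw [← hf]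
      exact natDegree_map_eq_of_injective (mpr_inj D) f
    have d4 : natDegree (mp D.r f) = natDegree f := hfm.natDegree_map _
    rw [d4, d1]
  have hpr : Prime (mp D.r f) := hirr.prime
  have hres : ∀ g : (ZMod D.p)[X][X], ¬ mp D.r f ∣ g → resultant (mp D.r f) g ≠ 0 :=
    fun g hg => hNMR.2.2.2.2 (ZMod D.p) _ g hfr hirr hg
  set P : (ZMod D.p)[X][X] := del (mp D.r f) (mp D.r d.A) * mp D.r d.H with hP
  set Q : (ZMod D.p)[X][X] := del (mp D.r f) (mp D.r d.H) * mp D.r d.A with hQ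
  have nP : ¬ mp D.r f ∣ P := fun h => (hpr.dvd_or_dvd h).elim d.nd d.nH
  -- the points
  have key : ∀ R : (ZMod D.p)[X][X], ∀ m : ℕ, 0 < m → ∀ a : D.E, a ^ D.p ^ m = a →
      aeval a (resultant (mp D.r f) (derivative (mp D.r f)) *
        resultant (mp D.r f) (mp D.r d.A) * resultant (mp D.r f) (mp D.r d.H) *
        resultant (mp D.r f) (mp D.r d.A3) * resultant (mp D.r f) (mp D.r d.H3) *
        resultant (mp D.r f) R) ≠ 0 →
      (∀ b : D.E, ev2 (algebraMap (ZMod D.p) D.E) a b (mp D.r f) = 0 → b ^ D.p ^ m = b) →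
      ∃ t : ball1 (D.i m).Lv, D.res m t = a ∧
        (∃ φ : k →+* (D.i m).Lv, φ.comp C.c = (D.i m).φ ∧ φ C.T = (t : (D.i m).Lv)) ∧
        ∀ φ : k →+* (D.i m).Lv, φ.comp C.c = (D.i m).φ → φ C.T = (t : (D.i m).Lv) →
          ∃ s : ball1 (D.i m).Lv, φ C.α = (s : (D.i m).Lv) ∧
            ev2 (algebraMap (ZMod D.p) D.E) a (D.res m s) (mp D.r f) = 0 ∧
            ev2 (algebraMap (ZMod D.p) D.E) a (D.res m s) R ≠ 0 ∧
            ((∃ u : ball1 (D.i m).Lv, (q (pl (D.i m) φ)).val x (u : (D.i m).Lv) ∧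
              D.res m u * ev2 (algebraMap (ZMod D.p) D.E) a (D.res m s) P =
                (D.res m u - 1) * ev2 (algebraMap (ZMod D.p) D.E) a (D.res m s) Q) ∨
            ((x ∉ (q (pl (D.i m) φ)).W ∨ ∃ u : (D.i m).Lv, (q (pl (D.i m) φ)).val x u ∧ 1 < ‖u‖) ∧
              ev2 (algebraMap (ZMod D.p) D.E) a (D.res m s) P =
                ev2 (algebraMap (ZMod D.p) D.E) a (D.res m s) Q)) := by
    intro R m hm a ha hS hb
    simp only [map_mul] at hS
    have s6 := right_ne_zero_of_mul hS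
    have hS := left_ne_zero_of_mul hS
    have s5 := right_ne_zero_of_mul hS
    have hS := left_ne_zero_of_mul hS
    have s4 := right_ne_zero_of_mul hS
    have hS := left_ne_zero_of_mul hS
    have s3 := right_ne_zero_of_mul hS
    have hS := left_ne_zero_of_mul hS
    have s2 := right_ne_zero_of_mul hS
    have s1 := left_ne_zero_of_mul hS
    obtain ⟨t, hta, hφ, h⟩ := hREDN K k hess C F0 q D x f hf hfm d.α d.β d.A d.H d.A3 d.H3 d.hα
      d.hβ d.cA d.cH d.cA3 d.cH3 m hm a ha (fun b hb0 => ⟨hb b hb0,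
        res_ne hNMR hfr hb0 s1, res_ne hNMR hfr hb0 s2, res_ne hNMR hfr hb0 s3,
        res_ne hNMR hfr hb0 s4, res_ne hNMR hfr hb0 s5⟩)
    refine ⟨t, hta, hφ, fun φ h1 h2 => ?_⟩
    obtain ⟨s, hs, hsf, h3⟩ := h φ h1 h2
    refine ⟨s, hs, hsf, res_ne hNMR hfr hsf s6, ?_⟩
    rcases h3 with ⟨u, hu, h3⟩ | ⟨h3, h4⟩
    · left
      refine ⟨u, hu, ?_⟩
      rw [hP, hQ, map_mul, map_mul, ← mul_assoc, ← mul_assoc]
      exact h3
    · right
      refine ⟨h3, ?_⟩
      rw [hP, hQ, map_mul, map_mul]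
      exact h4
  have hS0 : ∀ R : (ZMod D.p)[X][X], ¬ mp D.r f ∣ R →
      resultant (mp D.r f) (derivative (mp D.r f)) *
        resultant (mp D.r f) (mp D.r d.A) * resultant (mp D.r f) (mp D.r d.H) *
        resultant (mp D.r f) (mp D.r d.A3) * resultant (mp D.r f) (mp D.r d.H3) *
        resultant (mp D.r f) R ≠ 0 := fun R hR =>
    mul_ne_zero (mul_ne_zero (mul_ne_zero (mul_ne_zero (mul_ne_zero (hres _ hder)
      (hres _ d.nA)) (hres _ d.nH)) d.rA3) d.rH3) (hres R hR)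
  have evn : ∀ (a b : D.E) (l : ℕ), ev2 (algebraMap (ZMod D.p) D.E) a b
      (l : (ZMod D.p)[X][X]) = (l : D.E) := fun a b l => map_natCast _ l
  by_cases hPQ : mp D.r f ∣ P - Q
  · -- infinite values
    have h1 : ¬ mp D.r f ∣ 1 := fun h => hirr.not_isUnit (isUnit_of_dvd_one h)
    obtain ⟨l, hl, hw⟩ := hM (mp D.r f) 0 1 hfr hdeg (hres _ h1)
    refine ⟨l, hl, Or.inr ⟨f, Polynomial.C X * 1 + (l : (ZMod D.p)[X][X]) * 0, 1, _, hf, hfm,
      hS0 P nP, hres _ h1, hw, fun m hm a ha hS hb => ?_⟩⟩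
    obtain ⟨t, hta, hφ, h⟩ := key P m hm a ha hS hb
    refine ⟨t, hta, hφ, fun φ h1 h2 => ?_⟩
    obtain ⟨s, hs, hsf, hP0, h3⟩ := h φ h1 h2
    have hPQ0 : ev2 (algebraMap (ZMod D.p) D.E) a (D.res m s) P =
        ev2 (algebraMap (ZMod D.p) D.E) a (D.res m s) Q := by
      obtain ⟨g, hg⟩ := hPQ
      have := congrArg (ev2 (algebraMap (ZMod D.p) D.E) a (D.res m s)) hg
      rw [map_sub _ P Q, map_mul _ (mp D.r f) g, hsf, zero_mul, sub_eq_zero] at this
      exact this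
    have hv : ∃ u : ball1 (D.i m).Lv, (q (pl (D.i m) φ)).val x⁻¹ (u : (D.i m).Lv) ∧
        D.res m u = 0 := by
      rcases h3 with ⟨u, hu, h3⟩ | ⟨h3, h4⟩
      · exfalso
        apply hP0
        rw [hPQ0] at h3 ⊢
        linear_combination h3
      · rcases h3 with h3 | ⟨u, hu, h1u⟩
        · exact ⟨0, Plc.val_inv_of_notMem h3, map_zero _⟩
        · have hu0 : u ≠ 0 := by
            rintro rfl
            rw [norm_zero] at h1u
            linarith
          have h2 : ‖u⁻¹‖ < 1 := by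
            rw [norm_inv]
            exact inv_lt_one_of_one_lt₀ h1u
          exact ⟨⟨u⁻¹, h2.le⟩, hu.inv hu0, (D.res_zero m _).2 h2⟩
    obtain ⟨u, hu, hu0⟩ := hv
    refine ⟨s, t + (l : ball1 (D.i m).Lv) * u, hs, ?_, ?_⟩
    · have h4 := val_Tl C (l := l) hu
      have e : (pl (D.i m) φ).φ C.T = (t : (D.i m).Lv) := h2
      rw [e] at h4
      have e2 : (((t + (l : ball1 (D.i m).Lv) * u : ball1 (D.i m).Lv)) : (D.i m).Lv) =
          (t : (D.i m).Lv) + (l : (D.i m).Lv) * (u : (D.i m).Lv) := by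
        push_cast
        rfl
      rw [e2]
      exact h4
    · rw [map_add, map_mul, hu0, hta, map_add, map_mul, map_mul, ev2_CX, map_one, map_zero]
      ring
  · -- finite values
    have hQP : ¬ mp D.r f ∣ Q - P := by
      intro h
      apply hPQ
      have := (dvd_neg.2 h)
      rwa [neg_sub] at this
    obtain ⟨l, hl, hw⟩ := hM (mp D.r f) Q (Q - P) hfr hdeg (hres _ hQP)
    refine ⟨l, hl, Or.inl ⟨f, Polynomial.C X * (Q - P) + (l : (ZMod D.p)[X][X]) * Q, Q - P, _,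
      hf, hfm, hS0 (Q - P) hQP, hres _ hQP, hw, fun m hm a ha hS hb => ?_⟩⟩
    obtain ⟨t, hta, hφ, h⟩ := key (Q - P) m hm a ha hS hb
    refine ⟨t, hta, hφ, fun φ h1 h2 => ?_⟩
    obtain ⟨s, hs, hsf, hP0, h3⟩ := h φ h1 h2
    rw [map_sub] at hP0
    rcases h3 with ⟨u, hu, h3⟩ | ⟨-, h4⟩
    · refine ⟨s, t + (l : ball1 (D.i m).Lv) * u, hs, ?_, ?_⟩
      · have h4 := val_Tl C (l := l) hu
        have e : (pl (D.i m) φ).φ C.T = (t : (D.i m).Lv) := h2
        rw [e] at h4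
        have e2 : (((t + (l : ball1 (D.i m).Lv) * u : ball1 (D.i m).Lv)) : (D.i m).Lv) =
            (t : (D.i m).Lv) + (l : (D.i m).Lv) * (u : (D.i m).Lv) := by
          push_cast
          rfl
        rw [e2]
        exact h4
      · rw [map_add, map_mul, hta, map_natCast, map_add, map_mul, map_mul, ev2_CX, map_sub, evn]
        linear_combination (-(l : D.E)) * h3
    · exact absurd (sub_eq_zero.2 h4.symm) hP0

end Pool.Agent.Helper90.FX.Sel
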